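import Mathlib
import Pool.Agent.N824.CI.Main

/-!
# Isotopies and families of compactly supported diffeomorphisms from coarse families

A compactly supported diffeomorphism `φ` of `ℝⁿ` (for `n = 4`: a diffeomorphism of the ball or of
the 4-sphere supported in a ball, for instance a barbell implantation) is isotopic to the identity,
through compactly supported diffeomorphisms, if and only if the family over the two ends of the
interval given by `φ` and the identity extends to a family over the interval. More generally we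
consider families over `ℝᵏ`: a smooth map `Φ : ℝᵏ × ℝⁿ → ℝⁿ` the members `Φ_s` of which are
diffeomorphisms for `|s| ≥ 1/2` and the identity for `|x| > R₀`. The values for `|s| < 1/2` do not
matter. So `Φ` is given by a map of the sphere `S^{k-1}` to the group of compactly supported
diffeomorphisms of `ℝⁿ`; the case of an isotopy is `k = 1`.

The theorem characterizes when there is a smooth family `F`, with members which are
diffeomorphisms for all `s`, equal to the identity outside a ball, and with `F_s = Φ_s` for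
`|s| > a`, where `a < 1`: this is the case if and only if there is a *coarse* family, that is, for
arbitrarily small scales `r` (each one with its own map, unrelated for different `r`) a map
`f r : ℝᵏ × ℝⁿ → ℝⁿ`, equal to `Φ` for `|s| > a`, to `x` for `|x| > R`, and without any regularity
besides local integrability, not even along the parameters, such that on the ball of radius `r`
about each point `p` near a point `z` of `|s| ≤ a`, `|x| ≤ R` the map `f r` is *in the mean* within
`δ r` of an affine map with linear part `L`, where `(1 + |L|) r ≤ δ τ(r)` with `τ(r) → 0`, and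
`L` is injective on `ℝⁿ` (the vectors tangent to the fibres) with the margin `C δ`. Here `L` and `δ`
depend on `p` and `r`, and `C` is any sufficiently large constant. The members of the coarse family
need not be continuous or injective, and the slopes may tend to zero or to infinity.
-/

set_option autoImplicit false
set_option linter.unusedSectionVars false

open Set Filter Topology Metric MeasureTheory Function
open scoped ContDiff

noncomputable section

namespace Pool.Agent.Results.MP_8e98f2_gt.CoarseIsotopies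

/-- `ℝᵐ` -/
abbrev R (m : ℕ) := EuclideanSpace ℝ (Fin m)

/-- Lebesgue measure on `ℝᵐ` -/
def vol (m : ℕ) : Measure (R m) := volume

/-! In the following definitions `D = P × V` by the linear isomorphism `e`; in the theorem
`P = ℝᵏ`, `V = ℝⁿ` and `D = ℝᵏ⁺ⁿ`. A family of maps of `V` parametrized by `P` is given by a map
`D → V`. -/

section

variable {D P V : Type} [NormedAddCommGroup D] [NormedSpace ℝ D] [MeasurableSpace D]
  [NormedAddCommGroup P] [NormedSpace ℝ P] [NormedAddCommGroup V] [NormedSpace ℝ V]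

/-- diffeomorphisms -/
def IsDiffeo (g : V → V) : Prop :=
  ContDiff ℝ ∞ g ∧ ∃ h : V → V, ContDiff ℝ ∞ h ∧ LeftInverse h g ∧ RightInverse h g

/-- the member with the parameter `s` of the family `F` -/
def member (e : D ≃L[ℝ] P × V) (F : D → V) (s : P) (x : V) : V := F (e.symm (s, x))

/-- the given family: the members with `‖s‖ ≥ 1 / 2` are diffeomorphisms, the identity for
`‖x‖ > R₀` -/
structure BoundaryFamily (e : D ≃L[ℝ] P × V) (R₀ : ℝ) (Φ : D → V) : Prop where
  smooth : ContDiff ℝ ∞ Φ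
  support : ∀ z, R₀ < ‖(e z).2‖ → Φ z = (e z).2
  diffeo : ∀ s, 1 / 2 ≤ ‖s‖ → IsDiffeo (member e Φ s)

/-- `f` is equal to `Φ` for `‖s‖ > a` and the identity for `‖x‖ > ρ` -/
def Agrees (e : D ≃L[ℝ] P × V) (Φ f : D → V) (a ρ : ℝ) : Prop :=
  (∀ z, a < ‖(e z).1‖ → f z = Φ z) ∧ ∀ z, ρ < ‖(e z).2‖ → f z = (e z).2

/-- there is a smooth family of compactly supported diffeomorphisms which is equal to `Φ` for
`‖s‖ > a`, where `a < 1` -/
def Extends (e : D ≃L[ℝ] P × V) (Φ : D → V) : Prop :=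
  ∃ (F : D → V) (a ρ : ℝ), a < 1 ∧ ContDiff ℝ ∞ F ∧ Agrees e Φ F a ρ ∧
    ∀ s, IsDiffeo (member e F s)

/-- `h` is integrable on the ball of radius `r` about `p` and its distance to an affine map with
linear part `L` has integral at most `b` over this ball. -/
def AffineInMean (μ : Measure D) (h : D → V) (p : D) (r b : ℝ) (L : D →L[ℝ] V) : Prop :=
  IntegrableOn h (closedBall p r) μ ∧ ∃ c : V,
    ∫ q in closedBall p r, ‖h q - c - L (q - p)‖ ∂μ ≤ b

/-- the coarse condition at the point `z`; `d` is the dimension of `D` -/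
def CoarseAt (e : D ≃L[ℝ] P × V) (d : ℕ) (μ : Measure D) (C : ℝ) (S : Set ℝ) (f : ℝ → D → V)
    (z : D) : Prop :=
  ∃ (ρ : ℝ) (τ : ℝ → ℝ), 0 < ρ ∧ Tendsto τ (𝓝[>] 0) (𝓝 0) ∧ ∀ p, ‖p - z‖ < ρ → ∀ r ∈ S,
    0 < r → r < ρ → ∃ (L : D →L[ℝ] V) (δ : ℝ), 0 ≤ δ ∧ (1 + ‖L‖) * r ≤ δ * τ r ∧
      AffineInMean μ (f r) p r (δ * r ^ (d + 1)) L ∧
      ∀ v, (e v).1 = 0 → v ≠ 0 → C * δ * ‖v‖ < ‖L v‖

/-- there are coarse families equal to `Φ` for `‖s‖ > a`, where `a < 1` -/
def ExtendsCoarsely (e : D ≃L[ℝ] P × V) (d : ℕ) (μ : Measure D) (C R₀ : ℝ) (Φ : D → V) : Prop :=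
  ∃ (a ρ : ℝ) (S : Set ℝ) (f : ℝ → D → V), 1 / 2 ≤ a ∧ a < 1 ∧ R₀ ≤ ρ ∧
    (0 : ℝ) ∈ closure (S ∩ Ioi 0) ∧ (∀ r ∈ S, Agrees e Φ (f r) a ρ) ∧
    ∀ z, ‖(e z).1‖ ≤ a → ‖(e z).2‖ ≤ ρ → CoarseAt e d μ C S f z

end

open Pool.Agent.N824.CI (VI)

section

variable {N n : ℕ} {P : Type} [NormedAddCommGroup P] [NormedSpace ℝ P] [FiniteDimensional ℝ P]

/-- the projection to the parameters -/
def pr (e : R N ≃L[ℝ] P × R n) : R N →L[ℝ] P :=
  (ContinuousLinearMap.fst ℝ P (R n)).comp (e : R N →L[ℝ] P × R n)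

theorem member_fderiv (e : R N ≃L[ℝ] P × R n) {F : R N → R n} (hF : ContDiff ℝ ∞ F) (s : P)
    (x w : R n) : fderiv ℝ (member e F s) x w = fderiv ℝ F (e.symm (s, x)) (e.symm (0, w)) := by
  have h1 : HasFDerivAt (fun x : R n => e.symm (s, x))
      ((e.symm : P × R n →L[ℝ] R N).comp (ContinuousLinearMap.inr ℝ P (R n))) x := by
    have h2 : HasFDerivAt (fun x : R n => (s, x)) (ContinuousLinearMap.inr ℝ P (R n)) x :=
      hasFDerivAt_prodMk_right s x
    exact (e.symm : P × R n →L[ℝ] R N).hasFDerivAt.comp x h2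
  have h2 := ((hF.differentiable (by simp) (e.symm (s, x))).hasFDerivAt.comp x h1).fderiv
  have h3 : member e F s = F ∘ fun x : R n => e.symm (s, x) := rfl
  rw [h3, h2]
  rfl

theorem member_smooth (e : R N ≃L[ℝ] P × R n) {F : R N → R n} (hF : ContDiff ℝ ∞ F) (s : P) :
    ContDiff ℝ ∞ (member e F s) :=
  hF.comp (e.symm.contDiff.comp (contDiff_const.prodMk contDiff_id))

theorem diffeo_inj {g : R n → R n} (hg : IsDiffeo g) (x w : R n) (h : fderiv ℝ g x w = 0) :
    w = 0 := by
  obtain ⟨h1, k, hk, hl, -⟩ := hg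
  have h2 : fderiv ℝ (k ∘ g) x = (fderiv ℝ k (g x)).comp (fderiv ℝ g x) :=
    fderiv_comp x (hk.differentiable (by simp) _) (h1.differentiable (by simp) _)
  have h3 : k ∘ g = id := funext hl
  rw [h3, fderiv_id] at h2
  have h4 := congrArg (fun D : R n →L[ℝ] R n => D w) h2
  have h5 : w = fderiv ℝ k (g x) (fderiv ℝ g x w) := h4
  rw [h, map_zero] at h5
  exact h5

theorem vi_of_diffeo (e : R N ≃L[ℝ] P × R n) {F : R N → R n} (hF : ContDiff ℝ ∞ F) (z : R N)
    (h : IsDiffeo (member e F (e z).1)) : VI (pr e) F z := by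
  intro v hv h0
  have hv' : (e v).1 = 0 := hv
  have e1 : e.symm ((e z).1, (e z).2) = z := e.symm_apply_apply z
  have e2 : e.symm (0, (e v).2) = v := by
    rw [← hv']
    exact e.symm_apply_apply v
  have h1 := member_fderiv e hF (e z).1 (e z).2 (e v).2
  rw [e1, e2, h0] at h1
  have h2 := diffeo_inj h _ _ h1
  rw [← e2, h2]
  exact map_zero _

theorem forward {e : R N ≃L[ℝ] P × R n} {C : ℝ} (hC : 2 * Pool.Agent.N824.CJ.CJ N ≤ C) {R₀ : ℝ}
    {Φ : R N → R n} (hΦ : BoundaryFamily e R₀ Φ) (h : ExtendsCoarsely e N (vol N) C R₀ Φ) :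
    Extends e Φ := by
  obtain ⟨a, ρ, S, f, ha2, ha1, hρ, hS, hfA, hf⟩ := h
  obtain ⟨U, hU⟩ : ∃ U : Set (R N), U = {z | a < ‖(e z).1‖} ∪ {z | ρ < ‖(e z).2‖} := ⟨_, rfl⟩
  obtain ⟨Z, hZ⟩ : ∃ Z : Set (R N), Z = {z | (a + 1) / 2 ≤ ‖(e z).1‖} ∪
    {z | ρ + 1 ≤ ‖(e z).2‖} := ⟨_, rfl⟩
  have c1 : Continuous fun z : R N => ‖(e z).1‖ := (continuous_fst.comp e.continuous).norm
  have c2 : Continuous fun z : R N => ‖(e z).2‖ := (continuous_snd.comp e.continuous).norm
  have hUo : IsOpen U := by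
    rw [hU]
    exact (isOpen_lt continuous_const c1).union (isOpen_lt continuous_const c2)
  have hZc : IsClosed Z := by
    rw [hZ]
    exact (isClosed_le continuous_const c1).union (isClosed_le continuous_const c2)
  have hZU : Z ⊆ U := by
    rw [hZ, hU]
    rintro z (hz | hz)
    · left
      have hz' : (a + 1) / 2 ≤ ‖(e z).1‖ := hz
      show a < ‖(e z).1‖
      linarith
    · right
      have hz' : ρ + 1 ≤ ‖(e z).2‖ := hz
      show ρ < ‖(e z).2‖
      linarith
  have hUm : ∀ z, z ∉ U ↔ ‖(e z).1‖ ≤ a ∧ ‖(e z).2‖ ≤ ρ := by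
    intro z
    rw [hU, mem_union, not_or]
    show (¬ a < ‖(e z).1‖) ∧ (¬ ρ < ‖(e z).2‖) ↔ _
    rw [not_lt, not_lt]
  have hKc : IsCompact Uᶜ := by
    have h1 : IsCompact (e.symm '' (closedBall (0 : P) a ×ˢ closedBall (0 : R n) ρ)) :=
      ((isCompact_closedBall _ _).prod (isCompact_closedBall _ _)).image e.symm.continuous
    refine h1.of_isClosed_subset hUo.isClosed_compl fun z hz => ?_
    obtain ⟨k1, k2⟩ := (hUm z).1 hz
    exact ⟨e z, ⟨mem_closedBall_zero_iff.2 k1, mem_closedBall_zero_iff.2 k2⟩,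
      e.symm_apply_apply z⟩
  have hV : ∀ z ∈ U, VI (pr e) Φ z := by
    intro z hz
    rw [hU] at hz
    rcases hz with hz | hz
    · have hz' : a < ‖(e z).1‖ := hz
      exact vi_of_diffeo e hΦ.smooth z (hΦ.diffeo _ (by linarith))
    · intro v hv h0
      have hz' : ρ < ‖(e z).2‖ := hz
      have h1 : Φ =ᶠ[𝓝 z] fun z => (e z).2 := by
        filter_upwards [(isOpen_lt continuous_const c2).mem_nhds hz'] with y hy
        have hy' : ρ < ‖(e y).2‖ := hy
        exact hΦ.support y (by linarith)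
      have h2 : fderiv ℝ (fun z => (e z).2) z = (ContinuousLinearMap.snd ℝ P (R n)).comp
          (e : R N →L[ℝ] P × R n) :=
        ((ContinuousLinearMap.snd ℝ P (R n)).comp (e : R N →L[ℝ] P × R n)).fderiv
      rw [h1.fderiv_eq, h2] at h0
      have h3 : (e v).2 = 0 := h0
      have h4 : (e v).1 = 0 := hv
      have h5 : e v = 0 := Prod.ext h4 h3
      exact e.injective (h5.trans (map_zero e).symm)
  obtain ⟨F, K, hK, hKZ, hF, hFΦ, hVI⟩ := Pool.Agent.N824.CI.forwardI hC hΦ.smooth hS hUo hZc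
    hZU hKc hV (f := f) (fun r hr z hz => by
      rw [hU] at hz
      rcases hz with hz | hz
      · exact (hfA r hr).1 z hz
      · have hz' : ρ < ‖(e z).2‖ := hz
        rw [(hfA r hr).2 z hz, hΦ.support z (by linarith)])
    (fun z hz => by
      obtain ⟨k1, k2⟩ := (hUm z).1 hz
      obtain ⟨ρ', τ, h1, h2, h3⟩ := hf z k1 k2
      exact ⟨ρ', τ, h1, h2, h3⟩)
  have hA : Agrees e Φ F ((a + 1) / 2) (ρ + 1) := by
    constructor
    · intro z hz
      refine hFΦ z fun hzK => disjoint_left.1 hKZ hzK ?_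
      rw [hZ]
      exact Or.inl hz.le
    · intro z hz
      rw [hFΦ z fun hzK => disjoint_left.1 hKZ hzK (by rw [hZ]; exact Or.inr hz.le)]
      exact hΦ.support z (by linarith)
  refine ⟨F, (a + 1) / 2, ρ + 1, by linarith, hF, hA, fun s => ⟨member_smooth e hF s, ?_⟩⟩
  refine Pool.Agent.N824.CI.diffeo_of_ld (member_smooth e hF s) (fun x w hw => ?_)
    (R := ρ + 1) fun x hx => ?_
  · rw [member_fderiv e hF] at hw
    have h1 : e.symm (0, w) = 0 := hVI _ _ (by
      show (e (e.symm (0, w))).1 = 0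
      rw [e.apply_symm_apply]) hw
    have h2 : ((0 : P), w) = 0 := e.symm.injective (h1.trans (map_zero e.symm).symm)
    exact congrArg Prod.snd h2
  · have h1 := hA.2 (e.symm (s, x)) (by rw [e.apply_symm_apply]; exact hx)
    rw [e.apply_symm_apply] at h1
    exact h1

theorem backward {e : R N ≃L[ℝ] P × R n} (C R₀ : ℝ) {Φ : R N → R n} (h : Extends e Φ) :
    ExtendsCoarsely e N (vol N) C R₀ Φ := by
  obtain ⟨F, a, ρ, ha, hF, hA, hd⟩ := h
  refine ⟨max a (1 / 2), max ρ R₀, univ, fun _ => F, le_max_right _ _, max_lt ha (by norm_num),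
    le_max_right _ _, ?_, fun _ _ => ⟨fun z hz => hA.1 z ((le_max_left _ _).trans_lt hz),
      fun z hz => hA.2 z ((le_max_left _ _).trans_lt hz)⟩, fun z _ _ => ?_⟩
  · rw [univ_inter, closure_Ioi]
    exact self_mem_Ici
  · obtain ⟨ρ', τ, h1, h2, h3⟩ := Pool.Agent.N824.CI.backwardI (pr e) C univ hF
      (vi_of_diffeo e hF z (hd _))
    exact ⟨ρ', τ, h1, h2, h3⟩

end

theorem result (k n : ℕ) : ∃ C₀ : ℝ, ∀ C : ℝ, C₀ ≤ C → ∀ (R₀ : ℝ) (Φ : R (k + n) → R n),
    BoundaryFamily (EuclideanSpace.finAddEquivProd (𝕜 := ℝ) (n := k) (m := n)) R₀ Φ →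
    (Extends (EuclideanSpace.finAddEquivProd (𝕜 := ℝ) (n := k) (m := n)) Φ ↔
      ExtendsCoarsely (EuclideanSpace.finAddEquivProd (𝕜 := ℝ) (n := k) (m := n)) (k + n)
        (vol (k + n)) C R₀ Φ) :=
  ⟨2 * Pool.Agent.N824.CJ.CJ (k + n), fun C hC _ _ hΦ =>
    ⟨fun h => backward C _ h, fun h => forward hC hΦ h⟩⟩

end Pool.Agent.Results.MP_8e98f2_gt.CoarseIsotopies
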